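import Pool.Agent.helper7.AL.SpecL

/-!
# Row ba:LJI of project AL

The forms of the copies `n ↦ μ_p n + h₀ + Q v_p t` have different entries for all large `t`.
-/

set_option autoImplicit false

namespace Pool.Agent.LD

open Finset Pool.Agent.helper85.FC Pool.Agent.AT

/-- A linear equation with nonzero leading coefficient has no large solution. -/
theorem LJI_lin (A B : ℤ) (hA : A ≠ 0) : ∃ t₀ : ℕ, ∀ t : ℕ, t₀ ≤ t → A * t + B ≠ 0 := by
  refine ⟨B.natAbs + 1, fun t ht h => ?_⟩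
  have h1 : A * (t : ℤ) = -B := by linarith
  have h2 : (A * (t : ℤ)).natAbs = B.natAbs := by rw [h1, Int.natAbs_neg]
  rw [Int.natAbs_mul, Int.natAbs_natCast] at h2
  have h3 : 1 ≤ A.natAbs := Int.natAbs_pos.mpr hA
  have h4 : 1 * t ≤ A.natAbs * t := Nat.mul_le_mul_right t h3
  omega

theorem LJI : LJI_stmt := by
  classical
  intro k m Q s H μ v h₀ hQ hs hμ hv hinj
  -- the finitely many linear equations
  have key : ∀ e : (Fin m × Fin m) × (Fin k × Fin k), ∀ x x' : ℤ, ∃ t₀ : ℕ, ∀ t : ℕ, t₀ ≤ t → e.1.1 ≠ e.1.2 →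
      (s e.2.2 * μ e.1.2 : ℤ) * (s e.2.1 * (h₀ + Q * (v e.1.1 * t)) + x) ≠
        (s e.2.1 * μ e.1.1 : ℤ) * (s e.2.2 * (h₀ + Q * (v e.1.2 * t)) + x') := by
    intro e x x'
    by_cases hpq : e.1.1 = e.1.2
    · exact ⟨0, fun t _ h => absurd hpq h⟩
    have hA : ((s e.2.1 : ℤ) * s e.2.2 * Q) * ((μ e.1.2 : ℤ) * v e.1.1 - μ e.1.1 * v e.1.2) ≠ 0 := by
      have h1 : (s e.2.1 : ℤ) ≠ 0 := by exact_mod_cast (hs e.2.1).ne'
      have h2 : (s e.2.2 : ℤ) ≠ 0 := by exact_mod_cast (hs e.2.2).ne'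
      have h3 : (Q : ℤ) ≠ 0 := by exact_mod_cast hQ.ne'
      have h4 : ((μ e.1.2 : ℤ) * v e.1.1 - μ e.1.1 * v e.1.2) ≠ 0 := by
        intro h
        apply hv e.1.1 e.1.2 hpq
        have : ((μ e.1.2 * v e.1.1 : ℕ) : ℤ) = ((μ e.1.1 * v e.1.2 : ℕ) : ℤ) := by
          push_cast; linarith
        exact_mod_cast this
      exact mul_ne_zero (mul_ne_zero (mul_ne_zero h1 h2) h3) h4
    obtain ⟨t₀, ht₀⟩ := LJI_lin _ ((s e.2.2 * μ e.1.2 : ℤ) * (s e.2.1 * h₀ + x) - (s e.2.1 * μ e.1.1 : ℤ) * (s e.2.2 * h₀ + x')) hA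
    refine ⟨t₀, fun t ht _ h => ht₀ t ht ?_⟩
    linear_combination h
  choose T hT using key
  -- a common bound over all equations
  have hb : ∃ t₀ : ℕ, ∀ e : (Fin m × Fin m) × (Fin k × Fin k), ∀ x ∈ Finset.univ.biUnion H, ∀ x' ∈ Finset.univ.biUnion H,
      T e x x' ≤ t₀ := by
    refine ⟨∑ e : (Fin m × Fin m) × (Fin k × Fin k), ∑ x ∈ Finset.univ.biUnion H, ∑ x' ∈ Finset.univ.biUnion H, T e x x', ?_⟩
    intro e x hx x' hx'
    refine le_trans (Finset.single_le_sum (f := fun x' => T e x x') (fun _ _ => Nat.zero_le _) hx') ?_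
    refine le_trans (Finset.single_le_sum (f := fun x => ∑ x' ∈ Finset.univ.biUnion H, T e x x') (fun _ _ => Nat.zero_le _) hx) ?_
    exact Finset.single_le_sum
      (f := fun e => ∑ x ∈ Finset.univ.biUnion H, ∑ x' ∈ Finset.univ.biUnion H, T e x x') (fun _ _ => Nat.zero_le _)
      (Finset.mem_univ e)
  obtain ⟨t₀, ht₀⟩ := hb
  refine ⟨t₀, fun t ht x hx a b hab => ?_⟩
  -- write the indices as pairs
  obtain ⟨p, i, hp⟩ : ∃ p i, finProdFinEquiv.symm a = (p, i) := ⟨_, _, rfl⟩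
  obtain ⟨q, j, hq⟩ : ∃ q j, finProdFinEquiv.symm b = (q, j) := ⟨_, _, rfl⟩
  simp only [cop, hp, hq, Prod.mk.injEq] at hab
  obtain ⟨h1, h2⟩ := hab
  have hxi : ∀ p i, x p i ∈ Finset.univ.biUnion H := fun p i =>
    Finset.mem_biUnion.mpr ⟨i, Finset.mem_univ i, Fintype.mem_piFinset.mp (hx p) i⟩
  by_cases hpq : p = q
  · subst hpq
    have h3 : s i = s j := Nat.eq_of_mul_eq_mul_right (hμ p) h1
    have h4 : x p i = x p j := by
      rw [h3] at h2
      linarith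
    have h5 : i = j := hinj (x p) (hx p) (by simp only [fo, h3, h4])
    apply finProdFinEquiv.symm.injective
    rw [hp, hq, h5]
  · exfalso
    have := hT ((p, q), (i, j)) (x p i) (x q j) t
      (le_trans (ht₀ ((p, q), (i, j)) _ (hxi p i) _ (hxi q j)) ht) hpq
    apply this
    simp only
    have h1' : (s i : ℤ) * μ p = s j * μ q := by exact_mod_cast h1
    rw [h1', h2]

end Pool.Agent.LD
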