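import Pool.Agent.helper7.AL.SpecL

/-!
# Row ba:LQT of project AL

Almost all tuples of shifts for a slope vector with the box property.
-/

set_option autoImplicit false

namespace Pool.Agent.LD

open Finset Pool.Agent.helper85.FC Pool.Agent.AT

theorem LQT (hKSB : Pool.Agent.AT.KSB_stmt) (hCOI : COI_stmt) : LQT_stmt := by
  classical
  intro k K hk hK1
  obtain ⟨C, δ, hC, hδ, hδ1, hks⟩ := hKSB K k hK1
  refine ⟨C + (k : ℝ) ^ 2, δ, by positivity, hδ, hδ1, ?_⟩
  intro θ s hbox F L hL hF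
  have hinj0 : ∀ i, Function.Injective (fun x : ℤ => ((s i, x) : ℕ × ℤ)) := fun i x y h => (Prod.mk.inj h).2
  have hcard : ∀ i, #((F i).image (fun x : ℤ => ((s i, x) : ℕ × ℤ))) = #(F i) := fun i =>
    Finset.card_image_of_injective _ (hinj0 i)
  have hinj := hCOI k L (fun i => (F i).image (fun x : ℤ => ((s i, x) : ℕ × ℤ))) hL (fun i => by rw [hcard i]; exact hF i)
  simp only [hcard] at hinj
  have hprod : 0 ≤ ∏ i, (#(F i) : ℝ) := Finset.prod_nonneg (fun _ _ => by positivity)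
  have hLd : (1 : ℝ) / L ≤ (L : ℝ) ^ (-δ) := by
    have hL1 : (1 : ℝ) ≤ L := by exact_mod_cast hL
    rw [one_div, ← Real.rpow_neg_one]
    exact Real.rpow_le_rpow_of_exponent_le hL1 (by linarith)
  have hB' : (#{h ∈ Fintype.piFinset F | (Adm (fo s h) ∧ ¬ ManyT θ (fo s h)) ∧ Function.Injective (fo s h)} : ℝ) ≤
      C * (∏ i, (#(F i) : ℝ)) * (L : ℝ) ^ (-δ) := by
    by_contra hcon
    rw [not_le] at hcon
    obtain ⟨H, hH1, hH2⟩ := hks ℤ F L hL hF _ (Finset.filter_subset _ _) hcon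
    obtain ⟨f, hf, hfM⟩ := hbox H (fun i => by rw [(hH1 i).2])
      (fun f hf => ⟨((Finset.mem_filter.mp (hH2 hf)).2).1.1, ((Finset.mem_filter.mp (hH2 hf)).2).2⟩)
    exact ((Finset.mem_filter.mp (hH2 hf)).2).1.2 hfM
  have hle : #{h ∈ Fintype.piFinset F | ¬ Function.Injective (fo s h)} ≤
      #{f ∈ Fintype.piFinset (fun i => (F i).image (fun x : ℤ => ((s i, x) : ℕ × ℤ))) | ¬ Function.Injective f} := by
    refine Finset.card_le_card_of_injOn (fun h => fo s h) ?_ ?_
    · intro h hh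
      have hh' := Finset.mem_filter.mp (Finset.mem_coe.mp hh)
      refine Finset.mem_coe.mpr (Finset.mem_filter.mpr ⟨?_, hh'.2⟩)
      rw [Fintype.mem_piFinset]
      intro i
      exact Finset.mem_image.mpr ⟨h i, Fintype.mem_piFinset.mp hh'.1 i, rfl⟩
    · intro h _ h' _ e
      funext i
      exact (Prod.mk.inj (congrFun e i)).2
  have hN : (#{h ∈ Fintype.piFinset F | ¬ Function.Injective (fo s h)} : ℝ) ≤
      (k : ℝ) ^ 2 * (∏ i, (#(F i) : ℝ)) * (L : ℝ) ^ (-δ) := by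
    have h1 : (#{h ∈ Fintype.piFinset F | ¬ Function.Injective (fo s h)} : ℝ) ≤
        (#{f ∈ Fintype.piFinset (fun i => (F i).image (fun x : ℤ => ((s i, x) : ℕ × ℤ))) | ¬ Function.Injective f} : ℝ) := by
      exact_mod_cast hle
    refine le_trans h1 (le_trans (le_trans (le_of_eq ?_) hinj) ?_)
    · norm_cast
    · rw [div_eq_mul_one_div]
      exact mul_le_mul_of_nonneg_left hLd (by positivity)
  have hsub : (#{h ∈ Fintype.piFinset F | Adm (fo s h) ∧ ¬ ManyT θ (fo s h)} : ℝ) ≤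
      (#{h ∈ Fintype.piFinset F | (Adm (fo s h) ∧ ¬ ManyT θ (fo s h)) ∧ Function.Injective (fo s h)} : ℝ) +
      (#{h ∈ Fintype.piFinset F | ¬ Function.Injective (fo s h)} : ℝ) := by
    norm_cast
    refine le_trans (Finset.card_le_card ?_) (Finset.card_union_le _ _)
    intro f hf
    rw [Finset.mem_union, Finset.mem_filter, Finset.mem_filter]
    rw [Finset.mem_filter] at hf
    by_cases hi : Function.Injective (fo s f)
    · exact Or.inl ⟨hf.1, hf.2, hi⟩
    · exact Or.inr ⟨hf.1, hi⟩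
  have htot : (#{h ∈ Fintype.piFinset F | Adm (fo s h) ∧ ¬ ManyT θ (fo s h)} : ℝ) ≤
      (C + (k : ℝ) ^ 2) * (∏ i, (#(F i) : ℝ)) * (L : ℝ) ^ (-δ) := by
    refine le_trans hsub (le_trans (add_le_add hB' hN) (le_of_eq ?_))
    ring
  refine le_trans (le_of_eq ?_) htot
  norm_cast

end Pool.Agent.LD
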